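import Mathlib
import Pool.Agent.H421.Any

/-!
# Strong uniform boundedness with a constant which does not depend on the function field

The constant depends on nothing but the characteristic, the degree `d` of the map, the degree `D` of
the extensions, and a bound `n` for the degree of `K` over a purely transcendental extension of `k`
(for the function field of a curve: a bound for its gonality). It does not depend on `K`, nor on the
field `k`, which is arbitrary, nor on the transcendence degree, which may be infinite. Flexible
Lattes maps, inseparable maps and wild maps are included.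

For one fixed function field `K` of a curve this is question Q1 of the problem (settled by the frozen
statement S17873): in that case the bound may depend on `K`.
-/

set_option autoImplicit false

namespace Pool.Agent.Results.MP_9b502d_nt.AllGonality

open Polynomial

universe u v

/-- The self-map of the projective line `F ∪ {∞}`, where `none` is `∞`, given by the rational
function `p / q`, where `p` and `q` are coprime and `d` is the larger of their degrees: it sends
`x` to `p(x) / q(x)`, or to `∞` when `q(x) = 0`, and it sends `∞` to the quotient of the
coefficients of degree `d`, or to `∞` when that of `q` is zero. -/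
noncomputable def mapP1 {F : Type*} [Field F] (p q : F[X]) (d : ℕ) : Option F → Option F
  | some x => by classical exact if q.eval x = 0 then none else some (p.eval x / q.eval x)
  | none => by classical exact if q.coeff d = 0 then none else some (p.coeff d / q.coeff d)

/-- With `φ(x) = (a x + b) / (c x + e)`, the map `p / q` of degree `d` satisfies
`φ ∘ (p / q) = (u / w) ∘ φ` for some `a, b, c, e` in `F` with `a e ≠ b c` and some polynomials
`u, w` of degree at most `d`, not both zero, with coefficients algebraic over `k`; the equation is
written with denominators cleared. For the algebraically closed field `F` used below this says that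
`p / q` is isotrivial. -/
def Isotrivial (k : Type*) {F : Type*} [Field k] [Field F] [Algebra k F] (p q : F[X])
    (d : ℕ) : Prop :=
  ∃ a b c e : F, a * e - b * c ≠ 0 ∧ ∃ u w : F[X], (u ≠ 0 ∨ w ≠ 0) ∧
    u.natDegree ≤ d ∧ w.natDegree ≤ d ∧ (∀ n, IsAlgebraic k (u.coeff n)) ∧
    (∀ n, IsAlgebraic k (w.coeff n)) ∧
    (C a * p + C b * q) * ∑ i ∈ Finset.range (d + 1),
      C (w.coeff i) * (C a * X + C b) ^ i * (C c * X + C e) ^ (d - i) =
    (C c * p + C e * q) * ∑ i ∈ Finset.range (d + 1),
      C (u.coeff i) * (C a * X + C b) ^ i * (C c * X + C e) ^ (d - i)

/-- `K` has degree at most `n` over `k(B)` for some set `B` (finite or infinite) of elements of `K`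
which are algebraically independent over `k`. For the function field of a curve over `k` this says
that `K` has degree at most `n` over `k(t)` for some `t`: its gonality is at most `n`. -/
def GonalityLE (k K : Type*) [Field k] [Field K] [Algebra k K] (n : ℕ) : Prop :=
  ∃ B : Set K, AlgebraicIndependent k ((↑) : B → K) ∧
    FiniteDimensional (IntermediateField.adjoin k B) K ∧
    Module.finrank (IntermediateField.adjoin k B) K ≤ n

/-- The preperiodic points of `P / Q` in the projective line over the algebraic closure of `K` whose
coordinate lies in an extension of degree at most `D` of `K`. -/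
def prePer (K : Type*) [Field K] (P Q : (AlgebraicClosure K)[X]) (d D : ℕ) :
    Set (Option (AlgebraicClosure K)) :=
  {z | (Set.range fun m : ℕ => (mapP1 P Q d)^[m] z).Finite ∧
    ∀ x, z = some x → ∃ E : IntermediateField K (AlgebraicClosure K), FiniteDimensional K E ∧
      Module.finrank K E ≤ D ∧ x ∈ E}

/-- **Strong uniform boundedness, uniformly in the function field.** There is a function `N` such
that the following holds for all `c`, `n`, `D` and `d ≥ 2`, every field `k` of characteristic `c`
and every extension `K` of `k` of gonality at most `n`. If a rational map `P / Q` of degree `d`,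
defined over an extension `L` of degree at most `D` of `K`, is not isotrivial, then it has at most
`N(c, n, D, d)` preperiodic points of degree at most `D` over `K`. -/
theorem result : ∃ N : ℕ → ℕ → ℕ → ℕ → ℕ, ∀ (c n D d : ℕ) (k : Type v) (K : Type u) [Field k]
    [CharP k c] [Field K] [Algebra k K], GonalityLE k K n → 2 ≤ d →
    ∀ L : IntermediateField K (AlgebraicClosure K), FiniteDimensional K L →
    Module.finrank K L ≤ D → ∀ P Q : (AlgebraicClosure K)[X],
    (∀ m, P.coeff m ∈ L) → (∀ m, Q.coeff m ∈ L) → IsCoprime P Q →
    max P.natDegree Q.natDegree = d → ¬ Isotrivial k P Q d →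
    (prePer K P Q d D).encard ≤ ((N c n D d : ℕ) : ℕ∞) := by
  have h : ∀ c n D d : ℕ, ∃ N : ℕ, 2 ≤ d → ∀ (k : Type v) (K : Type u) [Field k] [CharP k c]
      [Field K] [Algebra k K] (B : Set K),
      AlgebraicIndependent k ((↑) : B → K) → FiniteDimensional (IntermediateField.adjoin k B) K →
      Module.finrank (IntermediateField.adjoin k B) K ≤ n →
      ∀ (L : IntermediateField K (AlgebraicClosure K)), FiniteDimensional K L →
      Module.finrank K L ≤ D → ∀ P Q : (AlgebraicClosure K)[X], (∀ m, P.coeff m ∈ L) →
      (∀ m, Q.coeff m ∈ L) → IsCoprime P Q → max P.natDegree Q.natDegree = d →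
      ¬ Pool.Agent.Y706.BI.IsoAlg k P Q d →
      {z : Option (AlgebraicClosure K) |
        (Set.range fun m : ℕ => (Pool.Agent.W277.UH.ratP1 P Q d)^[m] z).Finite ∧
        ∀ x, z = some x → ∃ E : IntermediateField K (AlgebraicClosure K), FiniteDimensional K E ∧
          Module.finrank K E ≤ D ∧ x ∈ E}.encard ≤ ((N : ℕ) : ℕ∞) := by
    intro c n D d
    by_cases hd : 2 ≤ d
    · obtain ⟨N, hN⟩ := Pool.Agent.H421.Any.bdg_any.{u, v} c n D d hd
      exact ⟨N, fun _ => hN⟩
    · exact ⟨0, fun h => absurd h hd⟩
  choose N hN using h
  refine ⟨N, ?_⟩
  intro c n D d k K _ _ _ _ ⟨B, hB, hBf, hBn⟩ hd L hL hLD P Q hP hQ hPQ hmax hiso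
  have e : mapP1 P Q d = Pool.Agent.W277.UH.ratP1 P Q d := by
    funext z
    cases z <;> rfl
  unfold prePer
  rw [e]
  exact hN c n D d hd k K B hB hBf hBn L hL hLD P Q hP hQ hPQ hmax hiso

end Pool.Agent.Results.MP_9b502d_nt.AllGonality
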